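import Mathlib.Data.Set.Card
import Pool.Agent.X126.Bim.Alg
import Pool.Agent.X126.Bim.Sg

/-!
# MP_cc6d20_al, Q1: YES

There is a set of ten identities in `\` and `/`, only two of which involve both operations, that
characterizes inverse semigroups in terms of their division bimagmas.
-/

namespace Pool.Agent.Results.MP_cc6d20_al.SemiSeparated

open X126.Bim

universe u

/-- Terms in two binary operation symbols: `ld s t` is `s \ t` and `rd s t` is `s / t`. -/
inductive Term : Type
  | var : ℕ → Term
  | ld : Term → Term → Term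
  | rd : Term → Term → Term

/-- The value of a term in the bimagma `(S, L, R)`, where `L x y = x \ y`, `R x y = x / y`. -/
def Term.eval {S : Type u} (L R : S → S → S) (v : ℕ → S) : Term → S
  | .var n => v n
  | .ld s t => L (s.eval L R v) (t.eval L R v)
  | .rd s t => R (s.eval L R v) (t.eval L R v)

/-- The symbol `\` occurs in the term. -/
def Term.HasLeft : Term → Prop
  | .var _ => False
  | .ld _ _ => True
  | .rd s t => s.HasLeft ∨ t.HasLeft

/-- The symbol `/` occurs in the term. -/
def Term.HasRight : Term → Prop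
  | .var _ => False
  | .ld s t => s.HasRight ∨ t.HasRight
  | .rd _ _ => True

/-- An identity: a pair of terms. -/
abbrev Identity : Type := Term × Term

/-- The identity holds in the bimagma `(S, L, R)`. -/
def Holds {S : Type u} (L R : S → S → S) (i : Identity) : Prop :=
  ∀ v : ℕ → S, i.1.eval L R v = i.2.eval L R v

/-- Both `\` and `/` occur in the identity. -/
def InvolvesBoth (i : Identity) : Prop :=
  (i.1.HasLeft ∨ i.2.HasLeft) ∧ (i.1.HasRight ∨ i.2.HasRight)

/-- `(S, L, R)` is the division bimagma of an inverse semigroup `(S, mul, inv)`: `mul` is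
associative, `inv x` is the unique inverse of `x`, and `L x y = x' y`, `R x y = x y'`. -/
def IsDivisionBimagma {S : Type u} (L R : S → S → S) : Prop :=
  ∃ (mul : S → S → S) (inv : S → S),
    (∀ x y z, mul (mul x y) z = mul x (mul y z)) ∧
    (∀ x, mul (mul x (inv x)) x = x ∧ mul (mul (inv x) x) (inv x) = inv x ∧
      ∀ y, mul (mul x y) x = x → mul (mul y x) y = y → y = inv x) ∧
    (∀ x y, L x y = mul (inv x) y) ∧
    (∀ x y, R x y = mul x (inv y))

/-- The set `Σ` of identities characterizes inverse semigroups in terms of their division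
bimagmas. -/
def Characterizes (E : Set Identity) : Prop :=
  ∀ (S : Type u) (L R : S → S → S), (∀ i ∈ E, Holds L R i) ↔ IsDivisionBimagma L R

/-! ### The identities -/

/-- variables -/
abbrev x : Term := .var 0
/-- variables -/
abbrev y : Term := .var 1
/-- variables -/
abbrev z : Term := .var 2
/-- variables -/
abbrev w : Term := .var 3

/-- The ten identities; only the first two involve both operations. Here `s.rd t` is `s / t` and
`s.ld t` is `s \ t`:
`(x/y)\z = y/(z\x)`, `(x/x)\x = x`,
`x/(y/(z/w)) = (x/(w/z))/y`, `(x/(z/z))/(w/w) = (x/(w/w))/(z/z)`,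
`(x/x)/(y/y) = (y/y)/(x/x)`, `((x/x)/(y/y))/(y/y) = (x/x)/(y/y)`,
`((w\z)\y)\x = y\((z\w)\x)`, `(z\z)\((w\w)\x) = (w\w)\((z\z)\x)`,
`(x\x)\(y\y) = (y\y)\(x\x)`, `q\q = q` with `q = (x\x)\(y\y)`. -/
def idents : List Identity :=
  [ ((x.rd y).ld z, y.rd (z.ld x)),
    ((x.rd x).ld x, x),
    (x.rd (y.rd (z.rd w)), (x.rd (w.rd z)).rd y),
    ((x.rd (z.rd z)).rd (w.rd w), (x.rd (w.rd w)).rd (z.rd z)),
    ((x.rd x).rd (y.rd y), (y.rd y).rd (x.rd x)),
    (((x.rd x).rd (y.rd y)).rd (y.rd y), (x.rd x).rd (y.rd y)),
    (((w.ld z).ld y).ld x, y.ld ((z.ld w).ld x)),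
    ((z.ld z).ld ((w.ld w).ld x), (w.ld w).ld ((z.ld z).ld x)),
    ((x.ld x).ld (y.ld y), (y.ld y).ld (x.ld x)),
    (((x.ld x).ld (y.ld y)).ld ((x.ld x).ld (y.ld y)), (x.ld x).ld (y.ld y)) ]

/-- assignment of four values -/
def asg {S : Type u} (a b c d : S) : ℕ → S
  | 0 => a
  | 1 => b
  | 2 => c
  | _ => d

theorem holds_iff {S : Type u} (L R : S → S → S) :
    (∀ i ∈ {i | i ∈ idents}, Holds L R i) ↔ Ax L R := by
  constructor
  · intro h
    have H : ∀ i ∈ idents, Holds L R i := h
    simp only [idents, List.mem_cons, List.not_mem_nil, or_false, forall_eq_or_imp,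
      forall_eq] at H
    obtain ⟨h1, h2, h3, h4, h5, h6, h7, h8, h9, h10⟩ := H
    exact
      { t1 := fun a b c => h1 (asg a b c a)
        t2 := fun a => h2 (asg a a a a)
        r1 := fun a b c d => h3 (asg a b c d)
        r2 := fun a c d => h4 (asg a a c d)
        l1 := fun a b c d => h7 (asg a b c d)
        l2 := fun a c d => h8 (asg a a c d)
        r3 := fun a b => h5 (asg a b a a)
        r4 := fun a b => h6 (asg a b a a)
        l3 := fun a b => h9 (asg a b a a)
        l4 := fun a b => h10 (asg a b a a) }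
  · intro h
    have H : ∀ i ∈ idents, Holds L R i := by
      simp only [idents, List.mem_cons, List.not_mem_nil, or_false, forall_eq_or_imp, forall_eq]
      exact ⟨fun v => h.t1 (v 0) (v 1) (v 2), fun v => h.t2 (v 0),
        fun v => h.r1 (v 0) (v 1) (v 2) (v 3), fun v => h.r2 (v 0) (v 2) (v 3),
        fun v => h.r3 (v 0) (v 1), fun v => h.r4 (v 0) (v 1),
        fun v => h.l1 (v 0) (v 1) (v 2) (v 3), fun v => h.l2 (v 0) (v 2) (v 3),
        fun v => h.l3 (v 0) (v 1), fun v => h.l4 (v 0) (v 1)⟩
    exact H

/-! ### From the identities to an inverse semigroup -/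

theorem to_division {S : Type u} {L R : S → S → S} (h : Ax L R) : IsDivisionBimagma L R := by
  refine ⟨ml L R, iv L R, ml_assoc h, fun a => ⟨ml_iv_ml h a, iv_ml_iv h a, ?_⟩,
    L_eq h, R_eq h⟩
  intro b hb1 hb2
  let _ : Semigroup S := { mul := ml L R, mul_assoc := ml_assoc h }
  have hmul : ∀ p q : S, ml L R p q = p * q := fun _ _ => rfl
  have hR : ∀ p : S, R p p = p * iv L R p := fun p => R_eq h p p
  have hL : ∀ p : S, L p p = iv L R p * p := fun p => L_eq h p p
  simp only [hmul] at hb1 hb2
  have i1 : ∀ p : S, p * iv L R p * p = p := fun p => ml_iv_ml h p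
  have i2 : ∀ p : S, iv L R p * p * iv L R p = iv L R p := fun p => iv_ml_iv h p
  -- projections commute
  have pc : ∀ p q : S, (p * iv L R p) * (q * iv L R q) = (q * iv L R q) * (p * iv L R p) := by
    intro p q
    rw [← hR, ← hR]
    exact ml_comm h p q
  have ivv : ∀ p : S, iv L R (iv L R p) = p := iv_iv h
  -- idempotents are projections
  have idp : ∀ g : S, g * g = g → g = g * iv L R g := by
    intro g hg
    have e1 : iv L R g = g * iv L R g * (iv L R g * g) := by
      calc iv L R g = iv L R g * g * iv L R g := (i2 g).symm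
        _ = iv L R g * (g * g) * iv L R g := by rw [hg]
        _ = (iv L R g * iv L R (iv L R g)) * (g * iv L R g) := by
            rw [ivv]; simp only [mul_assoc]
        _ = (g * iv L R g) * (iv L R g * iv L R (iv L R g)) := pc _ _
        _ = g * iv L R g * (iv L R g * g) := by rw [ivv]
    have e2 : g = iv L R g := by
      calc g = g * iv L R g * g := (i1 g).symm
        _ = g * (g * iv L R g * (iv L R g * g)) * g := by rw [← e1]
        _ = (g * g) * iv L R g * (iv L R g * (g * g)) := by simp only [mul_assoc]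
        _ = g * iv L R g * (iv L R g * g) := by rw [hg]
        _ = iv L R g := e1.symm
    rw [← e2, hg]
  have ic : ∀ g k : S, g * g = g → k * k = k → g * k = k * g := by
    intro g k hg hk
    rw [idp g hg, idp k hk]
    exact pc _ _
  have j1 : (a * b) * (a * b) = a * b := by rw [← mul_assoc, hb1]
  have j2 : (b * a) * (b * a) = b * a := by rw [← mul_assoc, hb2]
  have j3 : (a * iv L R a) * (a * iv L R a) = a * iv L R a := by rw [← mul_assoc, i1]
  have j4 : (iv L R a * a) * (iv L R a * a) = iv L R a * a := by rw [← mul_assoc, i2]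
  calc b = b * a * b := hb2.symm
    _ = b * (a * iv L R a * a) * b := by rw [i1]
    _ = (b * a) * (iv L R a * a) * b := by simp only [mul_assoc]
    _ = (iv L R a * a) * (b * a) * b := by rw [ic _ _ j2 j4]
    _ = iv L R a * a * (b * a * b) := by simp only [mul_assoc]
    _ = iv L R a * a * b := by rw [hb2]
    _ = (iv L R a * a * iv L R a) * a * b := by rw [i2]
    _ = iv L R a * ((a * iv L R a) * (a * b)) := by simp only [mul_assoc]
    _ = iv L R a * ((a * b) * (a * iv L R a)) := by rw [ic _ _ j3 j1]
    _ = iv L R a * ((a * b * a) * iv L R a) := by simp only [mul_assoc]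
    _ = iv L R a * (a * iv L R a) := by rw [hb1]
    _ = iv L R a := by rw [← mul_assoc, i2]

/-! ### From an inverse semigroup to the identities -/

theorem of_division {S : Type u} {L R : S → S → S} (h : IsDivisionBimagma L R) : Ax L R := by
  obtain ⟨mul, inv, hassoc, hinv, hL, hR⟩ := h
  let _ : Semigroup S := { mul := mul, mul_assoc := hassoc }
  have hmul : ∀ p q : S, mul p q = p * q := fun _ _ => rfl
  have I : IsInv inv :=
    { i1 := fun p => (hinv p).1
      i2 := fun p => (hinv p).2.1
      i3 := fun p q h1 h2 => (hinv p).2.2 q h1 h2 }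
  simp only [hmul] at hL hR
  have c1 : ∀ p q : S, (p * inv p) * (q * inv q) = (q * inv q) * (p * inv p) :=
    fun p q => I.comm (I.idem1 p) (I.idem1 q)
  have c2 : ∀ p q : S, (inv p * p) * (inv q * q) = (inv q * q) * (inv p * p) :=
    fun p q => I.comm (I.idem2 p) (I.idem2 q)
  refine
    { t1 := ?_, t2 := ?_, r1 := ?_, r2 := ?_, l1 := ?_, l2 := ?_, r3 := ?_, r4 := ?_, l3 := ?_,
      l4 := ?_ }
  · intro a b c
    simp only [hL, hR, I.mul_iv, I.iviv, mul_assoc]
  · intro a
    simp only [hL, hR, I.mul_iv, I.iviv]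
    exact I.i1 a
  · intro a b c d
    simp only [hR, I.mul_iv, I.iviv, mul_assoc]
  · intro a c d
    simp only [hR, I.mul_iv, I.iviv]
    rw [mul_assoc a (c * inv c), mul_assoc a (d * inv d), c1]
  · intro a b c d
    simp only [hL, I.mul_iv, I.iviv, mul_assoc]
  · intro a c d
    simp only [hL, I.mul_iv, I.iviv]
    rw [← mul_assoc (inv c * c), ← mul_assoc (inv d * d), c2]
  · intro a b
    simp only [hR, I.mul_iv, I.iviv]
    exact c1 a b
  · intro a b
    simp only [hR, I.mul_iv, I.iviv]
    rw [mul_assoc, I.idem1]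
  · intro a b
    simp only [hL, I.mul_iv, I.iviv]
    exact c2 a b
  · intro a b
    simp only [hL, I.mul_iv, I.iviv]
    rw [c2 b a]
    exact I.mul_idem (I.idem2 a) (I.idem2 b)

/-- **Q1, yes.** There is a (finite) semi-separated set of identities in `\` and `/`, that is, one
with at most two members in which both operations occur, that characterizes inverse semigroups in
terms of their division bimagmas. -/
theorem result : ∃ E : Set Identity,
    E.Finite ∧ {i ∈ E | InvolvesBoth i}.encard ≤ 2 ∧ Characterizes.{u} E := by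
  refine ⟨{i | i ∈ idents}, idents.finite_toSet, ?_, ?_⟩
  · have hsub : {i ∈ {i | i ∈ idents} | InvolvesBoth i} ⊆
        {((x.rd y).ld z, y.rd (z.ld x)), ((x.rd x).ld x, x)} := by
      intro i hi
      obtain ⟨hi1, hi2⟩ := hi
      have hi1' : i ∈ idents := hi1
      simp only [idents, List.mem_cons, List.not_mem_nil, or_false] at hi1'
      rcases hi1' with rfl | rfl | rfl | rfl | rfl | rfl | rfl | rfl | rfl | rfl
      · simp
      · simp
      all_goals
        exfalso
        simp [InvolvesBoth, Term.HasLeft, Term.HasRight] at hi2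
    refine (Set.encard_le_encard hsub).trans ?_
    exact (Set.encard_insert_le _ _).trans (by rw [Set.encard_singleton]; exact one_add_one_eq_two.le)
  · intro S L R
    rw [holds_iff]
    exact ⟨to_division, of_division⟩

end Pool.Agent.Results.MP_cc6d20_al.SemiSeparated
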